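import Mathlib

set_option autoImplicit false

namespace Pool.Agent.Results.MP_b4a25c_gt.Shear

open Set MeasureTheory
open scoped ENNReal NNReal Pointwise commutatorElement

section Defs
variable {E : Type} [NormedAddCommGroup E] [NormedSpace ℝ E] [Group E]

/-- The left-invariant vector field with value `v` at the identity. -/
noncomputable def leftField (v : E) (g : E) : E := fderiv ℝ (fun h => g * h) 1 v

/-- The Lie bracket on the tangent space at the identity. -/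
noncomputable def bracket (v w : E) : E := VectorField.lieBracket ℝ (leftField v) (leftField w) 1

/-- The group law on the vector space `E` is smooth and the Lie algebra is stratified by
`V 1, …, V r`. -/
def IsCarnot (V : ℕ → Submodule ℝ E) (r : ℕ) : Prop :=
  ContDiff ℝ ⊤ (fun p : E × E => p.1 * p.2) ∧ ContDiff ℝ ⊤ (fun g : E => g⁻¹) ∧
    iSupIndep (fun j : Icc 1 r => V j) ∧ ⨆ j : Icc 1 r, V j = ⊤ ∧ V r ≠ ⊥ ∧ V (r + 1) = ⊥ ∧
    ∀ j ∈ Icc 1 r, Submodule.span ℝ {u | ∃ v ∈ V 1, ∃ w ∈ V j, u = bracket v w} = V (j + 1)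

/-- The Carnot distance: infimum of the lengths of absolutely continuous curves tangent almost
everywhere to the left-invariant distribution given by `W`. -/
noncomputable def ccDist (W : Submodule ℝ E) (x y : E) : ℝ≥0∞ :=
  ⨅ (γ : ℝ → E) (u : ℝ → W) (_ : γ 0 = x) (_ : γ 1 = y)
    (_ : AbsolutelyContinuousOnInterval γ 0 1)
    (_ : ∀ᵐ s, s ∈ Icc (0 : ℝ) 1 → HasDerivAt γ (leftField (u s : E) (γ s)) s),
    ∫⁻ s in Icc (0 : ℝ) 1, ‖u s‖ₑ

end Defs

/-- The Heisenberg group of dimension `2 n + 1`. -/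
@[ext] structure Heis (n : ℕ) where
  x : Fin n → ℝ
  y : Fin n → ℝ
  z : ℝ

noncomputable instance (n : ℕ) : Group (Heis n) where
  mul a b := ⟨a.x + b.x, a.y + b.y, a.z + b.z + (a.x ⬝ᵥ b.y - a.y ⬝ᵥ b.x) / 2⟩
  one := ⟨0, 0, 0⟩
  inv a := ⟨-a.x, -a.y, -a.z⟩
  mul_assoc a b c := Heis.ext (add_assoc _ _ _) (add_assoc _ _ _) (by
    change a.z + b.z + (a.x ⬝ᵥ b.y - a.y ⬝ᵥ b.x) / 2 + c.z +
      ((a.x + b.x) ⬝ᵥ c.y - (a.y + b.y) ⬝ᵥ c.x) / 2 = a.z + (b.z + c.z +
      (b.x ⬝ᵥ c.y - b.y ⬝ᵥ c.x) / 2) + (a.x ⬝ᵥ (b.y + c.y) - a.y ⬝ᵥ (b.x + c.x)) / 2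
    simp only [add_dotProduct, dotProduct_add]
    ring)
  one_mul a := Heis.ext (zero_add _) (zero_add _) (by
    change 0 + a.z + (0 ⬝ᵥ a.y - 0 ⬝ᵥ a.x) / 2 = a.z
    simp)
  mul_one a := Heis.ext (add_zero _) (add_zero _) (by
    change a.z + 0 + (a.x ⬝ᵥ 0 - a.y ⬝ᵥ 0) / 2 = a.z
    simp)
  inv_mul_cancel a := Heis.ext (neg_add_cancel _) (neg_add_cancel _) (by
    change -a.z + a.z + ((-a.x) ⬝ᵥ a.y - (-a.y) ⬝ᵥ a.x) / 2 = 0
    simp [dotProduct_comm a.y])

lemma Hmul {n : ℕ} (a b : Heis n) :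
    a * b = ⟨a.x + b.x, a.y + b.y, a.z + b.z + (a.x ⬝ᵥ b.y - a.y ⬝ᵥ b.x) / 2⟩ := rfl
lemma Hinv {n : ℕ} (a : Heis n) : a⁻¹ = ⟨-a.x, -a.y, -a.z⟩ := rfl
lemma Hone {n : ℕ} : (1 : Heis n) = ⟨0, 0, 0⟩ := rfl

lemma Hcomm {n : ℕ} (a b : Heis n) : ⁅a, b⁆ = ⟨0, 0, a.x ⬝ᵥ b.y - a.y ⬝ᵥ b.x⟩ := by
  simp only [commutatorElement_def, Hmul, Hinv]
  ext <;> simp [add_dotProduct, dotProduct_comm a.y, dotProduct_comm b.y]
  ring

abbrev E : Type := EuclideanSpace ℝ (Fin 5)

noncomputable abbrev e (i : Fin 5) : E := EuclideanSpace.single i 1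

/-- The group law of the product of the line (coordinate 0) with the Engel group. -/
noncomputable instance : Mul E :=
  ⟨fun a b => a + b + b 1 • (a 2 • e 3 + a 3 • e 4) + (a 2 * b 1 ^ 2 / 2) • e 4⟩
instance : One E := ⟨0⟩
noncomputable instance : Inv E :=
  ⟨fun a => -a + (a 2 * a 1) • e 3 + (a 3 * a 1 - a 2 * a 1 ^ 2 / 2) • e 4⟩

lemma mul_def (a b : E) :
    a * b = a + b + b 1 • (a 2 • e 3 + a 3 • e 4) + (a 2 * b 1 ^ 2 / 2) • e 4 := rfl
lemma one_def : (1 : E) = 0 := rfl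
lemma inv_def (a : E) :
    a⁻¹ = -a + (a 2 * a 1) • e 3 + (a 3 * a 1 - a 2 * a 1 ^ 2 / 2) • e 4 := rfl

noncomputable instance grp : Group E := .ofLeftAxioms
  (fun a b c => by ext i; fin_cases i <;> simp [mul_def] <;> ring)
  (fun a => by simp [mul_def, one_def])
  (fun a => by ext i; fin_cases i <;> simp [mul_def, one_def, inv_def] <;> ring)

noncomputable abbrev P (i : Fin 5) : E →L[ℝ] ℝ := EuclideanSpace.proj i

lemma hP (i : Fin 5) (x : E) : HasFDerivAt (fun v : E => v i) (P i) x := (P i).hasFDerivAt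

lemma lf (v g : E) : leftField v g = v + v 1 • (g 2 • e 3 + g 3 • e 4) := by
  have := (((hasFDerivAt_id (𝕜 := ℝ) (0 : E)).const_add g).add ((hP 1 0).smul_const
    (g 2 • e 3 + g 3 • e 4))).add (((((hP 1 0).pow 2).const_mul (g 2)).mul_const 2⁻¹).smul_const (e 4))
  simp only [leftField, mul_def, div_eq_mul_inv]
  exact (DFunLike.congr_fun this.fderiv v).trans (by simp)

lemma br (v w : E) :
    bracket v w = (w 1 * v 2 - v 1 * w 2) • e 3 + (w 1 * v 3 - v 1 * w 3) • e 4 := by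
  have h : ∀ v u : E, fderiv ℝ (leftField v) 1 u = v 1 • (u 2 • e 3 + u 3 • e 4) := fun v u => by
    rw [funext (lf v)]
    have := ((((hP 2 1).smul_const (e 3)).add ((hP 3 1).smul_const (e 4))).const_smul
      (v 1)).const_add v
    exact (DFunLike.congr_fun this.fderiv u).trans (by simp)
  simp only [bracket, VectorField.lieBracket, h, lf]
  simp [one_def]
  module

def deg : Fin 5 → ℕ := ![1, 1, 1, 2, 3]

def Z (p : Fin 5 → Prop) : Submodule ℝ E where
  carrier := {v | ∀ i, p i → v i = 0}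
  add_mem' := fun ha hb i hi => by simp [ha i hi, hb i hi]
  zero_mem' := fun _ _ => rfl
  smul_mem' := fun _ _ ha i hi => by simp [ha i hi]

lemma mZ {p : Fin 5 → Prop} {v : E} : v ∈ Z p ↔ ∀ i, p i → v i = 0 := Iff.rfl

def V (j : ℕ) : Submodule ℝ E := Z fun i => deg i ≠ j

lemma carnot : IsCarnot V 3 := by
  refine ⟨by simp only [mul_def]; fun_prop, by simp only [inv_def]; fun_prop, fun j => ?_, ?_, ?_,
    ?_, fun j hj => ?_⟩
  · refine (Submodule.disjoint_def.2 fun v h1 h2 => ?_).mono_right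
      (iSup₂_le (a := Z fun i => deg i = j) fun k hk v hv i hi => hv i ?_)
    · ext i
      exact (em _).elim (h2 i) (h1 i)
    · exact fun e => hk (Subtype.ext (e.symm.trans hi))
  · refine eq_top_iff.2 fun v _ => ?_
    rw [← (EuclideanSpace.basisFun (Fin 5) ℝ).sum_repr v]
    refine Submodule.sum_mem _ fun i _ => Submodule.smul_mem _ _ (Submodule.mem_iSup_of_mem
      ⟨deg i, by fin_cases i <;> simp [deg]⟩ fun k hk => ?_)
    simp [show k ≠ i from fun e => hk (e ▸ rfl)]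
  · refine (Submodule.ne_bot_iff _).2 ⟨e 4, fun i hi => ?_, by simp⟩
    fin_cases i <;> simp_all [deg]
  · refine (Submodule.eq_bot_iff _).2 fun v hv => ?_
    ext i
    exact hv i (by fin_cases i <;> simp [deg])
  · refine le_antisymm (Submodule.span_le.2 ?_) fun v hv => ?_
    · rintro _ ⟨v, hv, w, hw, rfl⟩
      obtain ⟨h1, h2⟩ := hj
      simp only [V, mZ, SetLike.mem_coe, Fin.forall_fin_succ, deg, br] at hv hw ⊢
      interval_cases j <;> simp_all
    · obtain ⟨h1, h2⟩ := hj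
      simp only [V, mZ, Fin.forall_fin_succ, deg] at hv
      interval_cases j
      · refine Submodule.subset_span ⟨v 3 • e 2, ?_, e 1, ?_, ?_⟩
        · simp [V, mZ, Fin.forall_fin_succ, deg]
        · simp [V, mZ, Fin.forall_fin_succ, deg]
        · ext i; fin_cases i <;> simp_all [br]
      · refine Submodule.subset_span ⟨-v 4 • e 1, ?_, e 3, ?_, ?_⟩
        · simp [V, mZ, Fin.forall_fin_succ, deg]
        · simp [V, mZ, Fin.forall_fin_succ, deg]
        · ext i; fin_cases i <;> simp_all [br]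
      · convert Submodule.zero_mem _
        ext i; fin_cases i <;> simp_all

lemma cm (a b : E) : ∃ t : ℝ, ⁅a, b⁆ = (a 2 * b 1 - b 2 * a 1) • e 3 + t • e 4 :=
  ⟨⁅a, b⁆ 4, by
    ext i; fin_cases i <;> simp [commutatorElement_def, mul_def, inv_def]; ring⟩

lemma cm2 (s t : ℝ) : ⁅s • e 3 + t • e 4, e 1⁆ = s • e 4 := by
  ext i; fin_cases i <;> simp [commutatorElement_def, mul_def, inv_def]

lemma noHeis (n : ℕ) (hn : 1 ≤ n) (G : Type) [Group G] (φ : Heis n × G ≃* E) : False := by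
  let i : Fin n := ⟨0, hn⟩
  let a : Heis n × G := (⟨Pi.single i 1, 0, 0⟩, 1)
  let b : Heis n × G := (⟨0, Pi.single i 1, 0⟩, 1)
  have h3 : ∀ p q r : Heis n, ⁅⁅p, q⁆, r⁆ = 1 := fun p q r => by simp [Hcomm, Hone]
  obtain ⟨t, ht⟩ := cm (φ a) (φ b)
  have h1 : ⁅⁅φ a, φ b⁆, e 1⁆ = 1 := by
    rw [← φ.apply_symm_apply (e 1)]
    simp only [← map_commutatorElement, map_eq_one_iff φ φ.injective]
    exact Prod.ext (h3 _ _ _) (by simp [a, b, commutatorElement_def])
  rw [ht, cm2] at h1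
  have h2 := congrArg (fun v : E => v 4) h1
  obtain ⟨s, hs⟩ := cm (t • e 2) (e 1)
  have h4 : ⁅φ a, φ b⁆ = ⁅⁅t • e 2, e 1⁆, e 1⁆ := by
    rw [hs, cm2, ht]
    simp_all [one_def]
  have h5 := congrArg (fun v => (φ.symm v).1) h4
  simp only [map_commutatorElement, φ.symm_apply_apply] at h5
  have h6 := congrArg Heis.z (h5.trans (h3 _ _ _))
  change (⁅a.1, b.1⁆ : Heis n).z = 0 at h6
  simp [a, b, Hcomm] at h6

lemma acc {X Y : Type} [PseudoMetricSpace X] [PseudoMetricSpace Y] {φ : X → Y} {K : ℝ≥0}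
    (hφ : LipschitzWith K φ) {γ : ℝ → X} (h : AbsolutelyContinuousOnInterval γ 0 1) :
    AbsolutelyContinuousOnInterval (fun s => φ (γ s)) 0 1 := by
  unfold AbsolutelyContinuousOnInterval at h ⊢
  refine squeeze_zero (fun _ => Finset.sum_nonneg fun _ _ => dist_nonneg) (fun I => ?_)
    (by simpa using h.const_mul (K : ℝ))
  rw [Finset.mul_sum]
  exact Finset.sum_le_sum fun _ _ => hφ.dist_le_mul _ _

noncomputable def F (c : ℝ) (x : E) : E := x + (c * (Real.sin (x 3) * (1 + x 2 ^ 2)⁻¹)) • e 0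

lemma FF (c : ℝ) (x : E) : F (-c) (F c x) = x := by
  ext i; fin_cases i <;> simp [F]

lemma dpsi (t : ℝ) :
    HasDerivAt (fun t : ℝ => (1 + t ^ 2)⁻¹) (-(2 * t) / (1 + t ^ 2) ^ 2) t := by
  simpa using ((hasDerivAt_pow 2 t).const_add 1).fun_inv (by positivity)

lemma bpsi (t : ℝ) : |-(2 * t) / (1 + t ^ 2) ^ 2| ≤ 1 := by
  rw [abs_div, abs_of_pos (show 0 < (1 + t ^ 2) ^ 2 by positivity), div_le_one (by positivity)]
  exact abs_le.2 ⟨by nlinarith [sq_nonneg (t - 1), sq_nonneg (t ^ 2)],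
    by nlinarith [sq_nonneg (t + 1), sq_nonneg (t ^ 2)]⟩

lemma bil {c : ℝ} (hc : |c| ≤ 1) (x y : E) :
    ccDist (V 1) (F c x) (F c y) ≤ 3 * ccDist (V 1) x y := by
  simp only [ccDist]
  simp only [ENNReal.mul_iInf_of_ne (show (3 : ℝ≥0∞) ≠ 0 by simp) (show (3 : ℝ≥0∞) ≠ ⊤ by simp),
    le_iInf_iff]
  rintro γ u rfl rfl h1 h2
  let D : ℝ → ℝ := fun s => c * (Real.cos (γ s 3) * ((u s : E) 1 * γ s 2) * (1 + γ s 2 ^ 2)⁻¹ +
    Real.sin (γ s 3) * (-(2 * γ s 2) / (1 + γ s 2 ^ 2) ^ 2 * (u s : E) 2))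
  have e0 : e 0 ∈ V 1 := by simp [V, mZ, Fin.forall_fin_succ, deg]
  refine iInf_le_of_le (fun s => F c (γ s)) (iInf_le_of_le (fun s => u s + D s • ⟨e 0, e0⟩)
    (iInf_le_of_le rfl (iInf_le_of_le rfl (iInf_le_of_le ?_ (iInf_le_of_le ?_ ?_)))))
  · have l1 : LipschitzWith 1 fun t : ℝ => (1 + t ^ 2)⁻¹ := lipschitzWith_of_nnnorm_deriv_le
      (fun t => (dpsi t).differentiableAt) fun t => by rw [(dpsi t).deriv]; exact bpsi t
    have := acc (ContinuousLinearMap.toSpanSingleton ℝ (e 0)).lipschitz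
      (((acc Real.lipschitzWith_sin (acc (P 3).lipschitz h1)).fun_mul
        (acc l1 (acc (P 2).lipschitz h1))).const_mul c)
    exact h1.add this
  · filter_upwards [h2] with s hs hs'
    have a := fun i => (hP i (γ s)).comp_hasDerivAt s (hs hs')
    have u3 : (u s : E) 3 = 0 := (u s).2 3 (by simp [deg])
    convert (hs hs').add ((((a 3).sin.mul ((dpsi _).comp s (a 2))).const_mul c).smul_const (e 0))
      using 1
    · rfl
    ext i; fin_cases i <;> simp [lf, F, D, u3]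
  · rw [← lintegral_const_mul' _ _ (by simp)]
    refine lintegral_mono fun s => ?_
    have b1 : |(u s : E) 1| ≤ ‖u s‖ := PiLp.norm_apply_le (u s : E) 1
    have b2 : |(u s : E) 2| ≤ ‖u s‖ := PiLp.norm_apply_le (u s : E) 2
    have b3 : |γ s 2 * (1 + γ s 2 ^ 2)⁻¹| ≤ 1 := by
      rw [← div_eq_mul_inv, abs_div, abs_of_pos (show 0 < 1 + γ s 2 ^ 2 by positivity),
        div_le_one (by positivity)]
      exact abs_le.2 ⟨by nlinarith [sq_nonneg (γ s 2 - 1)], by nlinarith [sq_nonneg (γ s 2 + 1)]⟩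
    have b4 : |D s| ≤ 1 * (1 * (‖u s‖ * 1) + 1 * (1 * ‖u s‖)) := by
      simp only [D, mul_assoc]
      rw [abs_mul]
      gcongr
      refine (abs_add_le _ _).trans ?_
      simp only [abs_mul (Real.cos _), abs_mul (Real.sin _), abs_mul ((u s : E) 1), abs_mul (_ / _)]
      gcongr
      exacts [Real.abs_cos_le_one _, Real.abs_sin_le_one _, bpsi _]
    rw [← ofReal_norm, ← ofReal_norm, ← ENNReal.ofReal_ofNat 3, ← ENNReal.ofReal_mul (by simp)]
    refine ENNReal.ofReal_le_ofReal ((norm_add_le _ _).trans ?_)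
    have : ‖(⟨e 0, e0⟩ : V 1)‖ = 1 := by simp
    rw [norm_smul, this, Real.norm_eq_abs]
    linarith

/-- The product of the line with the Engel group is a Carnot group without Heisenberg factor
having a biLipschitz bijection that does not send the commutator subgroup onto one of its left
cosets. -/
theorem result :
    ∃ (V : ℕ → Submodule ℝ E) (r : ℕ), IsCarnot V r ∧
      (∀ n, 1 ≤ n → ∀ (G : Type) [Group G], IsEmpty (Heis n × G ≃* E)) ∧
      ∃ (F : E ≃ E) (L : ℝ≥0),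
        (∀ x y, ccDist (V 1) (F x) (F y) ≤ L * ccDist (V 1) x y ∧
          ccDist (V 1) x y ≤ L * ccDist (V 1) (F x) (F y)) ∧
        ∀ h : E, F '' (⊤ : Subgroup E).lowerCentralSeries 1 ≠
          (h * ·) '' (⊤ : Subgroup E).lowerCentralSeries 1 := by
  refine ⟨V, 3, carnot, fun n hn G _ => ⟨noHeis n hn G⟩,
    ⟨F 1, F (-1), FF 1, fun x => by simpa using FF (-1) x⟩, 3, fun x y => ⟨bil (by simp) x y, ?_⟩,
    fun h hh => ?_⟩
  · simpa [FF] using bil (c := -1) (by simp) (F 1 x) (F 1 y)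
  let π : E →* Multiplicative ℝ := MonoidHom.mk' (fun v => .ofAdd (v 0)) fun a b => by
    simp [mul_def, ofAdd_add]
  have k : ∀ v ∈ (⊤ : Subgroup E).lowerCentralSeries 1, F 1 v 0 = h 0 := fun v hv => by
    obtain ⟨w, hw, e⟩ := hh.subset (mem_image_of_mem _ hv)
    have : w 0 = 0 := Abelianization.commutator_subset_ker π hw
    simpa [mul_def, this] using (congrArg (fun v : E => v 0) e).symm
  have k1 := k 1 (one_mem _)
  obtain ⟨t, ht⟩ := cm ((Real.pi / 2) • e 2) (e 1)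
  have k2 := k _ (Subgroup.commutator_mem_commutator (Subgroup.mem_top ((Real.pi / 2) • e 2))
    (Subgroup.mem_top (e 1)))
  rw [ht, ← k1] at k2
  simp [F, one_def] at k2

end Pool.Agent.Results.MP_b4a25c_gt.Shear
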